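import Pool.Agent.Y766.R7.Stm

/-!
# Completion of incomplete sums
-/

namespace Pool.Agent.Y317.R7.Cmp

open Finset
open Pool.Agent.Y766.R3 (eu)

/-- The primitive root of unity. -/
noncomputable def zz (K : ℕ) : ℂ := Complex.exp (2 * Real.pi * Complex.I / K)

theorem zz_prim {K : ℕ} (hK : 1 ≤ K) : IsPrimitiveRoot (zz K) K :=
  Complex.isPrimitiveRoot_exp K (by omega)

theorem eu_eq (K b k : ℕ) : eu ((b : ℝ) * k / K) = zz K ^ (b * k) := by
  unfold eu zz
  rw [← Complex.exp_nat_mul]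
  congr 1
  push_cast
  ring

theorem orth {K : ℕ} (hK : 1 ≤ K) {k j : ℕ} (hk : k < K) (hj : j < K) :
    ∑ b ∈ range K, zz K ^ (b * k) * ((zz K)⁻¹) ^ (b * j) = if k = j then (K : ℂ) else 0 := by
  have hz := zz_prim hK
  have hz0 : zz K ≠ 0 := hz.ne_zero (by omega)
  have h1 : ∀ b, zz K ^ (b * k) * ((zz K)⁻¹) ^ (b * j) = (zz K ^ k * ((zz K)⁻¹) ^ j) ^ b := by
    intro b
    rw [mul_pow, ← pow_mul, ← pow_mul, mul_comm b k, mul_comm b j]
  simp only [h1]
  split_ifs with h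
  · subst h
    rw [← mul_pow, mul_inv_cancel₀ hz0, one_pow]
    simp
  · have h2 : zz K ^ k * ((zz K)⁻¹) ^ j ≠ 1 := by
      intro h3
      apply h
      apply hz.pow_inj hk hj
      rw [inv_pow] at h3
      field_simp at h3
      exact h3
    have h4 : (zz K ^ k * ((zz K)⁻¹) ^ j) ^ K = 1 := by
      rw [mul_pow, ← pow_mul, ← pow_mul, mul_comm k K, mul_comm j K, pow_mul, pow_mul, inv_pow,
        hz.pow_eq_one, inv_one, one_pow, one_pow, one_mul]
    have h5 := geom_sum_mul (zz K ^ k * ((zz K)⁻¹) ^ j) K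
    rw [h4, sub_self] at h5
    exact (mul_eq_zero.1 h5).resolve_right (sub_ne_zero.2 h2)

theorem expand {K : ℕ} (hK : 1 ≤ K) (c : ℕ → ℂ) {J : ℕ} (hJ : J ≤ K) :
    (K : ℂ) * ∑ k ∈ range J, c k = ∑ b ∈ range K,
      (∑ j ∈ range J, ((zz K)⁻¹) ^ (b * j)) * ∑ k ∈ range K, c k * zz K ^ (b * k) := by
  have h1 : ∀ b, (∑ j ∈ range J, ((zz K)⁻¹) ^ (b * j)) * ∑ k ∈ range K, c k * zz K ^ (b * k) =
      ∑ j ∈ range J, ∑ k ∈ range K, c k * (zz K ^ (b * k) * ((zz K)⁻¹) ^ (b * j)) := by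
    intro b
    rw [Finset.sum_mul_sum]
    exact Finset.sum_congr rfl fun j _ => Finset.sum_congr rfl fun k _ => by ring
  simp only [h1]
  rw [Finset.sum_comm, Finset.mul_sum]
  refine Finset.sum_congr rfl fun j hj => ?_
  rw [Finset.sum_comm]
  have hjK : j < K := (Finset.mem_range.1 hj).trans_le hJ
  rw [Finset.sum_eq_single j]
  · rw [← Finset.mul_sum, orth hK hjK hjK, if_pos rfl, mul_comm]
  · intro k hk hkj
    rw [← Finset.mul_sum, orth hK (Finset.mem_range.1 hk) hjK, if_neg hkj, mul_zero]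
  · intro h
    exact absurd (Finset.mem_range.2 hjK) h

theorem geo {K b : ℕ} (hb : 0 < b) (hbK : b < K) (J : ℕ) :
    ‖∑ j ∈ range J, ((zz K)⁻¹) ^ (b * j)‖ ≤ K * (1 / (2 * b) + 1 / (2 * |(K : ℝ) - b|)) := by
  have hK : 1 ≤ K := by omega
  have hKr : (0 : ℝ) < K := by exact_mod_cast hK
  have hbr : (0 : ℝ) < b := by exact_mod_cast hb
  have hbKr : (0 : ℝ) < (K : ℝ) - b := by
    have : (b : ℝ) < K := by exact_mod_cast hbK
    linarith
  have hz := zz_prim hK
  set w : ℂ := ((zz K)⁻¹) ^ b with hw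
  have h1 : ∀ j, ((zz K)⁻¹) ^ (b * j) = w ^ j := fun j => by rw [hw, ← pow_mul]
  simp only [h1]
  have h2 : w = Complex.exp (Complex.I * ((-(2 * Real.pi * b / K) : ℝ) : ℂ)) := by
    rw [hw]
    unfold zz
    rw [← Complex.exp_neg, ← Complex.exp_nat_mul]
    congr 1
    push_cast
    ring
  have h3 : ‖w - 1‖ = 2 * Real.sin (Real.pi * b / K) := by
    rw [h2, Complex.norm_exp_I_mul_ofReal_sub_one]
    rw [show -(2 * Real.pi * b / K) / 2 = -(Real.pi * b / K) by ring, Real.sin_neg, norm_mul,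
      norm_neg, Real.norm_eq_abs, Real.norm_eq_abs, abs_two, abs_of_nonneg]
    refine Real.sin_nonneg_of_nonneg_of_le_pi (by positivity) ?_
    rw [div_le_iff₀ hKr]
    nlinarith [Real.pi_pos]
  have h4 : ‖w‖ = 1 := by
    rw [h2, mul_comm, Complex.norm_exp_ofReal_mul_I]
  have h5 : ‖∑ j ∈ range J, w ^ j‖ * ‖w - 1‖ ≤ 2 := by
    rw [← norm_mul, geom_sum_mul]
    refine (norm_sub_le _ _).trans ?_
    rw [norm_pow, h4, one_pow, norm_one]
    norm_num
  -- the lower bound for the sine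
  have h6 : 1 ≤ K * (1 / (2 * b) + 1 / (2 * |(K : ℝ) - b|)) * Real.sin (Real.pi * b / K) := by
    rw [abs_of_pos hbKr]
    rcases le_total (2 * b) K with h | h
    · have h7 : 2 / Real.pi * (Real.pi * b / K) ≤ Real.sin (Real.pi * b / K) := by
        refine Real.mul_le_sin (by positivity) ?_
        rw [div_le_div_iff₀ hKr two_pos]
        have : (2 * b : ℝ) ≤ K := by exact_mod_cast h
        nlinarith [Real.pi_pos]
      have h8 : 2 / Real.pi * (Real.pi * b / K) = 2 * b / K := by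
        field_simp
      rw [h8] at h7
      calc (1 : ℝ) = K * (1 / (2 * b)) * (2 * b / K) := by field_simp
        _ ≤ K * (1 / (2 * b) + 1 / (2 * ((K : ℝ) - b))) * (2 * b / K) := by
            gcongr
            have : 0 < 1 / (2 * ((K : ℝ) - b)) := by positivity
            linarith
        _ ≤ _ := by gcongr
    · have h7 : 2 / Real.pi * (Real.pi - Real.pi * b / K) ≤
          Real.sin (Real.pi - Real.pi * b / K) := by
        refine Real.mul_le_sin ?_ ?_
        · rw [sub_nonneg, div_le_iff₀ hKr]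
          nlinarith [Real.pi_pos]
        · rw [sub_le_iff_le_add, ← sub_le_iff_le_add', le_div_iff₀ hKr]
          have : (K : ℝ) ≤ 2 * b := by exact_mod_cast h
          nlinarith [Real.pi_pos]
      rw [Real.sin_pi_sub] at h7
      have h8 : 2 / Real.pi * (Real.pi - Real.pi * b / K) = 2 * ((K : ℝ) - b) / K := by
        field_simp
      rw [h8] at h7
      calc (1 : ℝ) = K * (1 / (2 * ((K : ℝ) - b))) * (2 * ((K : ℝ) - b) / K) := by field_simp
        _ ≤ K * (1 / (2 * b) + 1 / (2 * ((K : ℝ) - b))) * (2 * ((K : ℝ) - b) / K) := by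
            gcongr
            have : 0 < 1 / (2 * (b : ℝ)) := by positivity
            linarith
        _ ≤ _ := by gcongr
  rw [h3] at h5
  have h9 : 0 ≤ ‖∑ j ∈ range J, w ^ j‖ := norm_nonneg _
  have h10 : 0 ≤ K * (1 / (2 * b) + 1 / (2 * |(K : ℝ) - b|)) := by positivity
  calc ‖∑ j ∈ range J, w ^ j‖ = ‖∑ j ∈ range J, w ^ j‖ * 1 := (mul_one _).symm
    _ ≤ ‖∑ j ∈ range J, w ^ j‖ * (K * (1 / (2 * b) + 1 / (2 * |(K : ℝ) - b|)) *
        Real.sin (Real.pi * b / K)) := mul_le_mul_of_nonneg_left h6 h9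
    _ = (K * (1 / (2 * b) + 1 / (2 * |(K : ℝ) - b|))) *
        ((‖∑ j ∈ range J, w ^ j‖ * (2 * Real.sin (Real.pi * b / K))) / 2) := by ring
    _ ≤ (K * (1 / (2 * b) + 1 / (2 * |(K : ℝ) - b|))) * 1 :=
        mul_le_mul_of_nonneg_left (by linarith) h10
    _ = _ := mul_one _

theorem harm (K : ℕ) :
    ∑ b ∈ range (K - 1), 1 / (2 * ((b + 1 : ℕ) : ℝ)) ≤ (1 + Real.log K) / 2 := by
  have h1 := harmonic_le_one_add_log (K - 1)
  have h2 : ((harmonic (K - 1) : ℚ) : ℝ) = ∑ b ∈ range (K - 1), 1 / ((b + 1 : ℕ) : ℝ) := by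
    unfold harmonic
    push_cast
    exact Finset.sum_congr rfl fun b _ => by rw [one_div]
  have h3 : ∑ b ∈ range (K - 1), 1 / (2 * ((b + 1 : ℕ) : ℝ)) =
      (∑ b ∈ range (K - 1), 1 / ((b + 1 : ℕ) : ℝ)) / 2 := by
    rw [Finset.sum_div]
    exact Finset.sum_congr rfl fun b _ => by rw [div_div, mul_comm]
  rw [h3, ← h2]
  have h4 : Real.log ((K - 1 : ℕ) : ℝ) ≤ Real.log K := by
    rcases Nat.eq_zero_or_pos (K - 1) with h | h
    · rw [h, Nat.cast_zero, Real.log_zero]
      exact Real.log_natCast_nonneg K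
    · exact Real.log_le_log (by exact_mod_cast h) (by exact_mod_cast Nat.sub_le K 1)
  linarith

theorem cmp : Pool.Agent.Y766.R7.S_CMP := by
  intro K hK
  have hKr : (0 : ℝ) < K := by exact_mod_cast hK
  refine ⟨fun b => if b = 0 then 1 else 1 / (2 * (b : ℝ)) + 1 / (2 * |(K : ℝ) - b|), ?_, ?_, ?_⟩
  · intro b
    dsimp only
    split_ifs
    · exact zero_le_one
    · positivity
  · obtain ⟨m, rfl⟩ : ∃ m, K = m + 1 := ⟨K - 1, by omega⟩
    rw [Finset.sum_range_succ', if_pos rfl]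
    have h1 : ∑ b ∈ range m, (if b + 1 = 0 then (1 : ℝ) else 1 / (2 * ((b + 1 : ℕ) : ℝ)) +
        1 / (2 * |((m + 1 : ℕ) : ℝ) - ((b + 1 : ℕ) : ℝ)|)) =
        ∑ b ∈ range m, 1 / (2 * ((b + 1 : ℕ) : ℝ)) + ∑ b ∈ range m, 1 / (2 * ((b + 1 : ℕ) : ℝ)) := by
      conv_rhs =>
        rhs
        rw [← Finset.sum_range_reflect (fun b => 1 / (2 * ((b + 1 : ℕ) : ℝ))) m]
      rw [← Finset.sum_add_distrib]
      refine Finset.sum_congr rfl fun b hb => ?_
      have hb' := Finset.mem_range.1 hb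
      rw [if_neg (by omega)]
      congr 3
      rw [abs_of_nonneg]
      · rw [show m - 1 - b + 1 = m - b by omega, Nat.cast_sub hb'.le]
        push_cast
        ring
      · push_cast
        have : (b : ℝ) < m := by exact_mod_cast hb'
        linarith
    rw [h1]
    have h2 := harm (m + 1)
    rw [show m + 1 - 1 = m by omega] at h2
    linarith
  · intro c J hJ
    have h1 := congrArg (fun z => ‖z‖) (expand hK c hJ)
    simp only [norm_mul, Complex.norm_natCast] at h1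
    have h2 : (K : ℝ) * ‖∑ k ∈ range J, c k‖ ≤ K * ∑ b ∈ range K,
        (if b = 0 then 1 else 1 / (2 * (b : ℝ)) + 1 / (2 * |(K : ℝ) - b|)) *
          ‖∑ k ∈ range K, c k * eu ((b : ℝ) * k / K)‖ := by
      rw [h1]
      refine (norm_sum_le _ _).trans ?_
      rw [Finset.mul_sum]
      refine Finset.sum_le_sum fun b hb => ?_
      rw [norm_mul, ← mul_assoc]
      simp only [eu_eq]
      refine mul_le_mul_of_nonneg_right ?_ (norm_nonneg _)
      split_ifs with h
      · subst h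
        simp only [zero_mul, pow_zero, Finset.sum_const, Finset.card_range, nsmul_eq_mul, mul_one,
          Complex.norm_natCast]
        exact_mod_cast hJ
      · exact geo (Nat.pos_of_ne_zero h) (Finset.mem_range.1 hb) J
    exact le_of_mul_le_mul_left h2 hKr

end Pool.Agent.Y317.R7.Cmp
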